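import Pool.Agent.Y522.Stm5
import Pool.Agent.Y833.SH.Boundary

/-!
# SH2-Final: the compact case (project SH2)
-/

set_option autoImplicit false

open Set Filter Topology Metric Function MeasureTheory
open scoped Manifold ContDiff

noncomputable section

namespace Pool.Agent.Y674.SH
open Pool.Agent.Y522 Pool.Agent.Y833.SH

section gen

variable {E₁ E₂ H₁ H₂ : Type*} [NormedAddCommGroup E₁] [NormedSpace ℝ E₁]
  [NormedAddCommGroup E₂] [NormedSpace ℝ E₂] [TopologicalSpace H₁] [TopologicalSpace H₂]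
  {I : ModelWithCorners ℝ E₁ H₁} {J : ModelWithCorners ℝ E₂ H₂}
  {M N : Type*} [TopologicalSpace M] [ChartedSpace H₁ M] [TopologicalSpace N] [ChartedSpace H₂ N]

/-- restrict a partial diffeomorphism to an open set -/
def resPD (Φ : PartialDiffeomorph I J M N ∞) (s : Set M) (hs : IsOpen s) :
    PartialDiffeomorph I J M N ∞ where
  toPartialEquiv := (Φ.toOpenPartialHomeomorph.restrOpen s hs).toPartialEquiv
  open_source := (Φ.toOpenPartialHomeomorph.restrOpen s hs).open_source
  open_target := (Φ.toOpenPartialHomeomorph.restrOpen s hs).open_target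
  contMDiffOn_toFun := by
    apply Φ.contMDiffOn_toFun.mono
    intro x hx
    rw [OpenPartialHomeomorph.restrOpen_source] at hx
    exact hx.1
  contMDiffOn_invFun := by
    apply Φ.contMDiffOn_invFun.mono
    intro x hx
    exact hx.1

theorem ld_congr {f g : M → N} {x : M} (hf : IsLocalDiffeomorphAt I J ∞ f x) (h : g =ᶠ[𝓝 x] f) :
    IsLocalDiffeomorphAt I J ∞ g x := by
  obtain ⟨Φ, hx, heq⟩ := hf
  obtain ⟨s, hs, hso, hxs⟩ := _root_.mem_nhds_iff.1 h
  refine ⟨resPD Φ s hso, ?_, ?_⟩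
  · change x ∈ (Φ.toOpenPartialHomeomorph.restrOpen s hso).source
    rw [OpenPartialHomeomorph.restrOpen_source]
    exact ⟨hx, hxs⟩
  · intro y hy
    change y ∈ (Φ.toOpenPartialHomeomorph.restrOpen s hso).source at hy
    rw [OpenPartialHomeomorph.restrOpen_source] at hy
    rw [hs hy.2, heq hy.1]
    rfl

theorem ld_eventually {f : M → N} {x : M} (hf : IsLocalDiffeomorphAt I J ∞ f x) :
    ∀ᶠ y in 𝓝 x, IsLocalDiffeomorphAt I J ∞ f y := by
  obtain ⟨Φ, hx, heq⟩ := hf
  filter_upwards [Φ.open_source.mem_nhds hx] with y hy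
  exact ⟨Φ, hy, heq⟩

end gen

theorem core (hG : StGlob) (m : ℕ) (M N X : Type) [TopologicalSpace M] [TopologicalSpace N]
    [TopologicalSpace X]
    [ChartedSpace (EuclideanHalfSpace (m + 1)) M] [ChartedSpace (EuclideanHalfSpace (m + 1)) N]
    [ChartedSpace (E (m + 1)) X]
    [IsManifold (𝓡∂ (m + 1)) ∞ M] [IsManifold (𝓡∂ (m + 1)) ∞ N] [IsManifold (𝓡 (m + 1)) ∞ X]
    (ι : X → M) (hι : Injective ι) (hιr : range ι = (𝓡∂ (m + 1)).interior M)
    (hιd : ∀ x, IsLocalDiffeomorphAt (𝓡 (m + 1)) (𝓡∂ (m + 1)) ∞ ι x)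
    (h : M ≃ₜ closedBall (0 : E (m + 1)) 1) (j : N ≃ₜ closedBall (0 : E (m + 1)) 1)
    (hj : ∀ y ∈ (𝓡∂ (m + 1)).interior N,
      IsLocalDiffeomorphAt (𝓡∂ (m + 1)) (𝓡 (m + 1)) ∞ (fun y => (j y : E (m + 1))) y)
    (hb : ∀ x ∉ (𝓡∂ (m + 1)).interior M,
      IsLocalDiffeomorphAt (𝓡∂ (m + 1)) (𝓡∂ (m + 1)) ∞ (fun x => j.symm (h x)) x)
    (hc : ∀ x ∈ (𝓡∂ (m + 1)).interior M, ∃ P : E (m + 1) →L[ℝ] E m,
      (∀ᶠ y in 𝓝 x, ContMDiffAt (𝓡∂ (m + 1)) (𝓡 m) ∞ (fun y => P (h y)) y) ∧
      Surjective (mfderiv (𝓡∂ (m + 1)) (𝓡 m) (fun y => P (h y)) x)) :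
    Nonempty (Diffeomorph (𝓡∂ (m + 1)) (𝓡∂ (m + 1)) M N ∞) := by
  classical
  have hMi : ∀ x, x ∈ (𝓡∂ (m + 1)).interior M ↔ ‖(h x : E (m + 1))‖ < 1 :=
    int_iff (𝓡∂ (m + 1)) inferInstance h
  have hNi : ∀ x, x ∈ (𝓡∂ (m + 1)).interior N ↔ ‖(j x : E (m + 1))‖ < 1 :=
    int_iff (𝓡∂ (m + 1)) inferInstance j
  have : T2Space M := h.symm.t2Space
  have : CompactSpace M := h.symm.compactSpace
  have hιc : Continuous ι := continuous_iff_continuousAt.2 fun x => (hιd x).contMDiffAt.continuousAt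
  have : T2Space X := T2Space.of_injective_continuous hι hιc
  have hιo : IsOpenMap ι := IsLocalDiffeomorph.isOpenMap (I := 𝓡 (m + 1)) (J := 𝓡∂ (m + 1))
    (n := ∞) hιd
  have hemb : IsOpenEmbedding ι := IsOpenEmbedding.of_continuous_injective_isOpenMap hιc hι hιo
  have hmem : ∀ x, ι x ∈ (𝓡∂ (m + 1)).interior M := fun x => hιr ▸ mem_range_self x
  obtain ⟨F, hF⟩ : ∃ F : X → E (m + 1), F = fun x => (h (ι x) : E (m + 1)) := ⟨_, rfl⟩
  have hFe : ∀ x, F x = h (ι x) := fun x => by rw [hF]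
  have hFn : ∀ x, ‖F x‖ < 1 := fun x => by rw [hFe]; exact (hMi _).1 (hmem x)
  have hFc : Continuous F := by
    rw [hF]
    exact continuous_subtype_val.comp (h.continuous.comp hιc)
  have hFi : Injective F := by
    intro a b hab
    rw [hFe, hFe] at hab
    exact hι (h.injective (Subtype.ext hab))
  -- local diffeomorphism
  have hld : ∀ x, IsLocalDiffeomorphAt (𝓡∂ (m + 1)) (𝓡∂ (m + 1)) ∞ (fun x => j.symm (h x)) (ι x) →
      LD (m + 1) F x := by
    intro x hx
    have h1 := IsLocalDiffeomorphAt.comp (𝓡∂ (m + 1)) N (hιd x) hx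
    have h2 : IsLocalDiffeomorphAt (𝓡∂ (m + 1)) (𝓡 (m + 1)) ∞ (fun y => (j y : E (m + 1)))
        (((fun x => j.symm (h x)) ∘ ι) x) := by
      refine hj _ ((hNi _).2 ?_)
      simp only [comp_apply, Homeomorph.apply_symm_apply]
      rw [← hFe]
      exact hFn x
    have h3 := IsLocalDiffeomorphAt.comp (𝓡 (m + 1)) (E (m + 1)) h1 h2
    have h4 : (fun y => (j y : E (m + 1))) ∘ (fun x => j.symm (h x)) ∘ ι = F := by
      funext y
      simp only [comp_apply, Homeomorph.apply_symm_apply]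
      rw [hFe]
    rw [h4] at h3
    exact h3
  have hcoord : ∀ x, ¬ LD (m + 1) F x → Coord m F x := by
    intro x _
    obtain ⟨P, hP1, hP2⟩ := hc (ι x) (hmem x)
    have hP3 : ∀ᶠ y in 𝓝 x, ContMDiffAt (𝓡 (m + 1)) (𝓡 m) ∞ (fun y => P (F y)) y := by
      filter_upwards [hιc.continuousAt.eventually hP1] with y hy
      rw [hF]
      exact ContMDiffAt.comp (g := fun y => P (h y)) (f := ι) y hy (hιd y).contMDiffAt
    refine ⟨P, hP3, ?_⟩
    have h1 : mfderiv (𝓡 (m + 1)) (𝓡 m) ((fun y => P (h y)) ∘ ι) x =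
        (mfderiv (𝓡∂ (m + 1)) (𝓡 m) (fun y => P (h y)) (ι x)).comp
          (mfderiv (𝓡 (m + 1)) (𝓡∂ (m + 1)) ι x) :=
      mfderiv_comp x (hP1.self_of_nhds.mdifferentiableAt (by simp))
        ((hιd x).mdifferentiableAt (by simp))
    have h2 : (fun y => P (F y)) = (fun y => P (h y)) ∘ ι := by
      funext y
      simp only [comp_apply]
      rw [hFe]
    rw [h2, h1]
    have h3 : Surjective (mfderiv (𝓡 (m + 1)) (𝓡∂ (m + 1)) ι x) :=
      ((hιd x).mfderivToContinuousLinearEquiv (by simp)).surjective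
    exact hP2.comp h3
  have hK : IsCompact {x | ¬ LD (m + 1) F x} := by
    rw [hemb.isInducing.isCompact_iff]
    refine IsClosed.isCompact ?_
    rw [← isOpen_compl_iff, isOpen_iff_mem_nhds]
    intro x₀ hx₀
    by_cases hi : x₀ ∈ (𝓡∂ (m + 1)).interior M
    · rw [← hιr] at hi
      obtain ⟨x, rfl⟩ := hi
      have h1 : LD (m + 1) F x := by
        by_contra h1
        exact hx₀ ⟨x, h1, rfl⟩
      refine mem_of_superset (hιo.image_mem_nhds h1.eventually) ?_
      rintro _ ⟨y, hy, rfl⟩ ⟨y', hy', hyy⟩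
      rw [hι hyy] at hy'
      exact hy' hy
    · filter_upwards [ld_eventually (hb x₀ hi)] with y hy
      rintro ⟨x, hx, rfl⟩
      exact hx (hld x hy)
  obtain ⟨F', C, hC, hF'c, hF'i, hF'r, hF'C, hF'd⟩ := hG m X F hFc hFi hcoord hK
  have hF'n : ∀ x, ‖F' x‖ < 1 := by
    intro x
    have : F' x ∈ range F := hF'r ▸ mem_range_self x
    obtain ⟨y, hy⟩ := this
    rw [← hy]
    exact hFn y
  obtain ⟨G, hG1, hG2⟩ : ∃ G : M → closedBall (0 : E (m + 1)) 1,
      (∀ x, (G (ι x) : E (m + 1)) = F' x) ∧ ∀ y, y ∉ range ι → G y = h y := by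
    refine ⟨fun y => if hy : ∃ x, ι x = y then ⟨F' hy.choose, by
      rw [mem_closedBall_zero_iff]; exact (hF'n _).le⟩ else h y, ?_, ?_⟩
    · intro x
      have hx : ∃ x', ι x' = ι x := ⟨x, rfl⟩
      simp only [dif_pos hx]
      rw [hι hx.choose_spec]
    · intro y hy
      have : ¬ ∃ x, ι x = y := hy
      simp only [dif_neg this]
  have hbn : ∀ y, y ∉ range ι → ¬ ‖(h y : E (m + 1))‖ < 1 := by
    intro y hy h1
    rw [← hMi, ← hιr] at h1
    exact hy h1
  have hGi : Injective G := by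
    intro a b hab
    by_cases ha : a ∈ range ι
    · by_cases hb' : b ∈ range ι
      · obtain ⟨x, rfl⟩ := ha
        obtain ⟨y, rfl⟩ := hb'
        have := congrArg (Subtype.val) hab
        rw [hG1, hG1] at this
        rw [hF'i this]
      · exfalso
        obtain ⟨x, rfl⟩ := ha
        have := congrArg (Subtype.val) hab
        rw [hG1, hG2 b hb'] at this
        exact hbn b hb' (this ▸ hF'n x)
    · by_cases hb' : b ∈ range ι
      · exfalso
        obtain ⟨x, rfl⟩ := hb'
        have := congrArg (Subtype.val) hab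
        rw [hG1, hG2 a ha] at this
        exact hbn a ha (this ▸ hF'n x)
      · rw [hG2 a ha, hG2 b hb'] at hab
        exact h.injective hab
  have hGs : Surjective G := by
    intro y
    by_cases hy : ‖(y : E (m + 1))‖ < 1
    · have h1 : h.symm y ∈ range ι := by
        rw [hιr, hMi, h.apply_symm_apply]
        exact hy
      obtain ⟨x, hx⟩ := h1
      have h2 : (y : E (m + 1)) ∈ range F' := by
        rw [hF'r]
        refine ⟨x, ?_⟩
        rw [hFe, hx, h.apply_symm_apply]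
      obtain ⟨x', hx'⟩ := h2
      refine ⟨ι x', Subtype.ext ?_⟩
      rw [hG1, hx']
    · refine ⟨h.symm y, ?_⟩
      rw [hG2, h.apply_symm_apply]
      intro h1
      rw [hιr, hMi, h.apply_symm_apply] at h1
      exact hy h1
  have hloc : IsLocalDiffeomorph (𝓡∂ (m + 1)) (𝓡∂ (m + 1)) ∞ (fun y => j.symm (G y)) := by
    intro y
    by_cases hy : y ∈ range ι
    · obtain ⟨x, rfl⟩ := hy
      have ha := (hιd x).localInverse_isLocalDiffeomorphAt
      have hax : (hιd x).localInverse (ι x) = x :=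
        (hιd x).localInverse_left_inv (hιd x).localInverse_mem_target
      have h1 : LD (m + 1) F' ((hιd x).localInverse (ι x)) := by
        rw [hax]
        exact hF'd x
      have h2 := IsLocalDiffeomorphAt.comp (𝓡 (m + 1)) (E (m + 1)) ha h1
      have hjp : IsLocalDiffeomorphAt (𝓡∂ (m + 1)) (𝓡 (m + 1)) ∞ (fun y => (j y : E (m + 1)))
          (j.symm (G (ι x))) := by
        refine hj _ ((hNi _).2 ?_)
        rw [j.apply_symm_apply, hG1]
        exact hF'n x
      have h3 := hjp.localInverse_isLocalDiffeomorphAt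
      have h4 : (j (j.symm (G (ι x))) : E (m + 1)) = (F' ∘ (hιd x).localInverse) (ι x) := by
        rw [j.apply_symm_apply, hG1, comp_apply, hax]
      beta_reduce at h3
      rw [h4] at h3
      have h5 := IsLocalDiffeomorphAt.comp (𝓡∂ (m + 1)) N h2 h3
      refine ld_congr h5 ?_
      have h6 : (F' ∘ (hιd x).localInverse) (ι x) ∈ hjp.localInverse.source := by
        rw [← h4]
        exact hjp.localInverse_mem_source
      filter_upwards [(hιd x).localInverse.open_source.mem_nhds (hιd x).localInverse_mem_source,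
        h2.contMDiffAt.continuousAt (hjp.localInverse.open_source.mem_nhds h6)] with y' g1 g2
      have g3 : ι ((hιd x).localInverse y') = y' := (hιd x).localInverse_right_inv g1
      have g4 := hjp.localInverse_right_inv g2
      show j.symm (G y') = hjp.localInverse ((F' ∘ (hιd x).localInverse) y')
      rw [Homeomorph.symm_apply_eq]
      refine Subtype.ext ?_
      beta_reduce at g4
      rw [g4, comp_apply, ← hG1, g3]
    · have hyi : y ∉ (𝓡∂ (m + 1)).interior M := by rwa [← hιr]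
      refine ld_congr (hb y hyi) ?_
      have h1 : IsClosed (ι '' C) := (hC.image hιc).isClosed
      have h2 : y ∉ ι '' C := fun h2 => hy (image_subset_range _ _ h2)
      filter_upwards [h1.isOpen_compl.mem_nhds h2] with y' hy'
      by_cases g1 : y' ∈ range ι
      · obtain ⟨x', rfl⟩ := g1
        have g2 : x' ∉ C := fun g2 => hy' ⟨x', g2, rfl⟩
        have g3 : G (ι x') = h (ι x') := by
          refine Subtype.ext ?_
          rw [hG1, hF'C x' g2, hFe]
        rw [g3]
      · rw [hG2 y' g1]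
  exact ⟨hloc.diffeomorphOfBijective ⟨fun a b hab => hGi (j.symm.injective hab),
    j.symm.surjective.comp hGs⟩⟩

/-- **The compact case.** -/
theorem compactCase (hG : StGlob) : StCompactCase := by
  intro m M N _ _ _ _ _ _ h j hj hb hc
  let := csI (M := M) (𝓡∂ (m + 1))
  have := mfI (M := M) (𝓡∂ (m + 1))
  exact core hG m M N ((𝓡∂ (m + 1)).interior M) Subtype.val Subtype.val_injective
    Subtype.range_val (fun x => ldiff_val (𝓡∂ (m + 1)) x) h j hj hb hc

end Pool.Agent.Y674.SH
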