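import Pool.Agent.Y674.SH.Final2

/-!
# The compact case, the parts of the proof (project SH2)

`nonLD_compact`: the set of the bad points is compact; `glue`: a modification of the homeomorphism
which is a local diffeomorphism gives a diffeomorphism.
-/

set_option autoImplicit false

open Set Filter Topology Metric Function MeasureTheory
open scoped Manifold ContDiff

noncomputable section

namespace Pool.Agent.Y674.SH
open Pool.Agent.Y522 Pool.Agent.Y833.SH

/-- The set of the points at which `h ∘ ι` is not a local diffeomorphism is compact. -/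
theorem nonLD_compact (m : ℕ) (M N X : Type) [TopologicalSpace M] [TopologicalSpace N]
    [TopologicalSpace X]
    [ChartedSpace (EuclideanHalfSpace (m + 1)) M] [ChartedSpace (EuclideanHalfSpace (m + 1)) N]
    [ChartedSpace (E (m + 1)) X]
    [IsManifold (𝓡∂ (m + 1)) ∞ M] [IsManifold (𝓡∂ (m + 1)) ∞ N] [IsManifold (𝓡 (m + 1)) ∞ X]
    (ι : X → M) (hι : Injective ι) (hιr : range ι = (𝓡∂ (m + 1)).interior M)
    (hιd : ∀ x, IsLocalDiffeomorphAt (𝓡 (m + 1)) (𝓡∂ (m + 1)) ∞ ι x)
    (h : M ≃ₜ closedBall (0 : E (m + 1)) 1) (j : N ≃ₜ closedBall (0 : E (m + 1)) 1)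
    (hj : ∀ y ∈ (𝓡∂ (m + 1)).interior N,
      IsLocalDiffeomorphAt (𝓡∂ (m + 1)) (𝓡 (m + 1)) ∞ (fun y => (j y : E (m + 1))) y)
    (hb : ∀ x ∉ (𝓡∂ (m + 1)).interior M,
      IsLocalDiffeomorphAt (𝓡∂ (m + 1)) (𝓡∂ (m + 1)) ∞ (fun x => j.symm (h x)) x) :
    IsCompact {x | ¬ LD (m + 1) (fun x => (h (ι x) : E (m + 1))) x} := by
  classical
  have hMi : ∀ x, x ∈ (𝓡∂ (m + 1)).interior M ↔ ‖(h x : E (m + 1))‖ < 1 :=
    int_iff (𝓡∂ (m + 1)) inferInstance h
  have hNi : ∀ x, x ∈ (𝓡∂ (m + 1)).interior N ↔ ‖(j x : E (m + 1))‖ < 1 :=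
    int_iff (𝓡∂ (m + 1)) inferInstance j
  have : T2Space M := h.symm.t2Space
  have : CompactSpace M := h.symm.compactSpace
  have hιc : Continuous ι := continuous_iff_continuousAt.2 fun x => (hιd x).contMDiffAt.continuousAt
  have : T2Space X := T2Space.of_injective_continuous hι hιc
  have hιo : IsOpenMap ι := IsLocalDiffeomorph.isOpenMap (I := 𝓡 (m + 1)) (J := 𝓡∂ (m + 1))
    (n := ∞) hιd
  have hemb : IsOpenEmbedding ι := IsOpenEmbedding.of_continuous_injective_isOpenMap hιc hι hιo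
  have hmem : ∀ x, ι x ∈ (𝓡∂ (m + 1)).interior M := fun x => hιr ▸ mem_range_self x
  obtain ⟨F, hF⟩ : ∃ F : X → E (m + 1), F = fun x => (h (ι x) : E (m + 1)) := ⟨_, rfl⟩
  rw [← hF]
  have hFe : ∀ x, F x = h (ι x) := fun x => by rw [hF]
  have hFn : ∀ x, ‖F x‖ < 1 := fun x => by rw [hFe]; exact (hMi _).1 (hmem x)
  have hFc : Continuous F := by
    rw [hF]
    exact continuous_subtype_val.comp (h.continuous.comp hιc)
  have hFi : Injective F := by
    intro a b hab
    rw [hFe, hFe] at hab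
    exact hι (h.injective (Subtype.ext hab))
  -- local diffeomorphism
  have hld : ∀ x, IsLocalDiffeomorphAt (𝓡∂ (m + 1)) (𝓡∂ (m + 1)) ∞ (fun x => j.symm (h x)) (ι x) →
      LD (m + 1) F x := by
    intro x hx
    have h1 := IsLocalDiffeomorphAt.comp (𝓡∂ (m + 1)) N (hιd x) hx
    have h2 : IsLocalDiffeomorphAt (𝓡∂ (m + 1)) (𝓡 (m + 1)) ∞ (fun y => (j y : E (m + 1)))
        (((fun x => j.symm (h x)) ∘ ι) x) := by
      refine hj _ ((hNi _).2 ?_)
      simp only [comp_apply, Homeomorph.apply_symm_apply]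
      rw [← hFe]
      exact hFn x
    have h3 := IsLocalDiffeomorphAt.comp (𝓡 (m + 1)) (E (m + 1)) h1 h2
    have h4 : (fun y => (j y : E (m + 1))) ∘ (fun x => j.symm (h x)) ∘ ι = F := by
      funext y
      simp only [comp_apply, Homeomorph.apply_symm_apply]
      rw [hFe]
    rw [h4] at h3
    exact h3
  rw [hemb.isInducing.isCompact_iff]
  refine IsClosed.isCompact ?_
  rw [← isOpen_compl_iff, isOpen_iff_mem_nhds]
  intro x₀ hx₀
  by_cases hi : x₀ ∈ (𝓡∂ (m + 1)).interior M
  · rw [← hιr] at hi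
    obtain ⟨x, rfl⟩ := hi
    have h1 : LD (m + 1) F x := by
      by_contra h1
      exact hx₀ ⟨x, h1, rfl⟩
    refine mem_of_superset (hιo.image_mem_nhds h1.eventually) ?_
    rintro _ ⟨y, hy, rfl⟩ ⟨y', hy', hyy⟩
    rw [hι hyy] at hy'
    exact hy' hy
  · filter_upwards [ld_eventually (hb x₀ hi)] with y hy
    rintro ⟨x, hx, rfl⟩
    exact hx (hld x hy)

/-- A modification of `h ∘ ι` on a compact set which is a local diffeomorphism gives a
diffeomorphism. -/
theorem glue (m : ℕ) (M N X : Type) [TopologicalSpace M] [TopologicalSpace N]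
    [TopologicalSpace X]
    [ChartedSpace (EuclideanHalfSpace (m + 1)) M] [ChartedSpace (EuclideanHalfSpace (m + 1)) N]
    [ChartedSpace (E (m + 1)) X]
    [IsManifold (𝓡∂ (m + 1)) ∞ M] [IsManifold (𝓡∂ (m + 1)) ∞ N] [IsManifold (𝓡 (m + 1)) ∞ X]
    (ι : X → M) (hι : Injective ι) (hιr : range ι = (𝓡∂ (m + 1)).interior M)
    (hιd : ∀ x, IsLocalDiffeomorphAt (𝓡 (m + 1)) (𝓡∂ (m + 1)) ∞ ι x)
    (h : M ≃ₜ closedBall (0 : E (m + 1)) 1) (j : N ≃ₜ closedBall (0 : E (m + 1)) 1)
    (hj : ∀ y ∈ (𝓡∂ (m + 1)).interior N,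
      IsLocalDiffeomorphAt (𝓡∂ (m + 1)) (𝓡 (m + 1)) ∞ (fun y => (j y : E (m + 1))) y)
    (hb : ∀ x ∉ (𝓡∂ (m + 1)).interior M,
      IsLocalDiffeomorphAt (𝓡∂ (m + 1)) (𝓡∂ (m + 1)) ∞ (fun x => j.symm (h x)) x)
    (F' : X → E (m + 1)) (C : Set X) (hC : IsCompact C) (hF'i : Injective F')
    (hF'r : range F' = range (fun x => (h (ι x) : E (m + 1))))
    (hF'C : ∀ x ∉ C, F' x = h (ι x)) (hF'd : ∀ x, LD (m + 1) F' x) :
    Nonempty (Diffeomorph (𝓡∂ (m + 1)) (𝓡∂ (m + 1)) M N ∞) := by
  classical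
  have hMi : ∀ x, x ∈ (𝓡∂ (m + 1)).interior M ↔ ‖(h x : E (m + 1))‖ < 1 :=
    int_iff (𝓡∂ (m + 1)) inferInstance h
  have hNi : ∀ x, x ∈ (𝓡∂ (m + 1)).interior N ↔ ‖(j x : E (m + 1))‖ < 1 :=
    int_iff (𝓡∂ (m + 1)) inferInstance j
  have : T2Space M := h.symm.t2Space
  have : CompactSpace M := h.symm.compactSpace
  have hιc : Continuous ι := continuous_iff_continuousAt.2 fun x => (hιd x).contMDiffAt.continuousAt
  have : T2Space X := T2Space.of_injective_continuous hι hιc
  have hιo : IsOpenMap ι := IsLocalDiffeomorph.isOpenMap (I := 𝓡 (m + 1)) (J := 𝓡∂ (m + 1))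
    (n := ∞) hιd
  have hemb : IsOpenEmbedding ι := IsOpenEmbedding.of_continuous_injective_isOpenMap hιc hι hιo
  have hmem : ∀ x, ι x ∈ (𝓡∂ (m + 1)).interior M := fun x => hιr ▸ mem_range_self x
  obtain ⟨F, hF⟩ : ∃ F : X → E (m + 1), F = fun x => (h (ι x) : E (m + 1)) := ⟨_, rfl⟩
  have hFe : ∀ x, F x = h (ι x) := fun x => by rw [hF]
  rw [← hF] at hF'r
  have hFn : ∀ x, ‖F x‖ < 1 := fun x => by rw [hFe]; exact (hMi _).1 (hmem x)
  have hFc : Continuous F := by
    rw [hF]
    exact continuous_subtype_val.comp (h.continuous.comp hιc)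
  have hFi : Injective F := by
    intro a b hab
    rw [hFe, hFe] at hab
    exact hι (h.injective (Subtype.ext hab))
  -- local diffeomorphism
  have hld : ∀ x, IsLocalDiffeomorphAt (𝓡∂ (m + 1)) (𝓡∂ (m + 1)) ∞ (fun x => j.symm (h x)) (ι x) →
      LD (m + 1) F x := by
    intro x hx
    have h1 := IsLocalDiffeomorphAt.comp (𝓡∂ (m + 1)) N (hιd x) hx
    have h2 : IsLocalDiffeomorphAt (𝓡∂ (m + 1)) (𝓡 (m + 1)) ∞ (fun y => (j y : E (m + 1)))
        (((fun x => j.symm (h x)) ∘ ι) x) := by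
      refine hj _ ((hNi _).2 ?_)
      simp only [comp_apply, Homeomorph.apply_symm_apply]
      rw [← hFe]
      exact hFn x
    have h3 := IsLocalDiffeomorphAt.comp (𝓡 (m + 1)) (E (m + 1)) h1 h2
    have h4 : (fun y => (j y : E (m + 1))) ∘ (fun x => j.symm (h x)) ∘ ι = F := by
      funext y
      simp only [comp_apply, Homeomorph.apply_symm_apply]
      rw [hFe]
    rw [h4] at h3
    exact h3
  have hF'n : ∀ x, ‖F' x‖ < 1 := by
    intro x
    have : F' x ∈ range F := hF'r ▸ mem_range_self x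
    obtain ⟨y, hy⟩ := this
    rw [← hy]
    exact hFn y
  obtain ⟨G, hG1, hG2⟩ : ∃ G : M → closedBall (0 : E (m + 1)) 1,
      (∀ x, (G (ι x) : E (m + 1)) = F' x) ∧ ∀ y, y ∉ range ι → G y = h y := by
    refine ⟨fun y => if hy : ∃ x, ι x = y then ⟨F' hy.choose, by
      rw [mem_closedBall_zero_iff]; exact (hF'n _).le⟩ else h y, ?_, ?_⟩
    · intro x
      have hx : ∃ x', ι x' = ι x := ⟨x, rfl⟩
      simp only [dif_pos hx]
      rw [hι hx.choose_spec]
    · intro y hy
      have : ¬ ∃ x, ι x = y := hy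
      simp only [dif_neg this]
  have hbn : ∀ y, y ∉ range ι → ¬ ‖(h y : E (m + 1))‖ < 1 := by
    intro y hy h1
    rw [← hMi, ← hιr] at h1
    exact hy h1
  have hGi : Injective G := by
    intro a b hab
    by_cases ha : a ∈ range ι
    · by_cases hb' : b ∈ range ι
      · obtain ⟨x, rfl⟩ := ha
        obtain ⟨y, rfl⟩ := hb'
        have := congrArg (Subtype.val) hab
        rw [hG1, hG1] at this
        rw [hF'i this]
      · exfalso
        obtain ⟨x, rfl⟩ := ha
        have := congrArg (Subtype.val) hab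
        rw [hG1, hG2 b hb'] at this
        exact hbn b hb' (this ▸ hF'n x)
    · by_cases hb' : b ∈ range ι
      · exfalso
        obtain ⟨x, rfl⟩ := hb'
        have := congrArg (Subtype.val) hab
        rw [hG1, hG2 a ha] at this
        exact hbn a ha (this ▸ hF'n x)
      · rw [hG2 a ha, hG2 b hb'] at hab
        exact h.injective hab
  have hGs : Surjective G := by
    intro y
    by_cases hy : ‖(y : E (m + 1))‖ < 1
    · have h1 : h.symm y ∈ range ι := by
        rw [hιr, hMi, h.apply_symm_apply]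
        exact hy
      obtain ⟨x, hx⟩ := h1
      have h2 : (y : E (m + 1)) ∈ range F' := by
        rw [hF'r]
        refine ⟨x, ?_⟩
        rw [hFe, hx, h.apply_symm_apply]
      obtain ⟨x', hx'⟩ := h2
      refine ⟨ι x', Subtype.ext ?_⟩
      rw [hG1, hx']
    · refine ⟨h.symm y, ?_⟩
      rw [hG2, h.apply_symm_apply]
      intro h1
      rw [hιr, hMi, h.apply_symm_apply] at h1
      exact hy h1
  have hloc : IsLocalDiffeomorph (𝓡∂ (m + 1)) (𝓡∂ (m + 1)) ∞ (fun y => j.symm (G y)) := by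
    intro y
    by_cases hy : y ∈ range ι
    · obtain ⟨x, rfl⟩ := hy
      have ha := (hιd x).localInverse_isLocalDiffeomorphAt
      have hax : (hιd x).localInverse (ι x) = x :=
        (hιd x).localInverse_left_inv (hιd x).localInverse_mem_target
      have h1 : LD (m + 1) F' ((hιd x).localInverse (ι x)) := by
        rw [hax]
        exact hF'd x
      have h2 := IsLocalDiffeomorphAt.comp (𝓡 (m + 1)) (E (m + 1)) ha h1
      have hjp : IsLocalDiffeomorphAt (𝓡∂ (m + 1)) (𝓡 (m + 1)) ∞ (fun y => (j y : E (m + 1)))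
          (j.symm (G (ι x))) := by
        refine hj _ ((hNi _).2 ?_)
        rw [j.apply_symm_apply, hG1]
        exact hF'n x
      have h3 := hjp.localInverse_isLocalDiffeomorphAt
      have h4 : (j (j.symm (G (ι x))) : E (m + 1)) = (F' ∘ (hιd x).localInverse) (ι x) := by
        rw [j.apply_symm_apply, hG1, comp_apply, hax]
      beta_reduce at h3
      rw [h4] at h3
      have h5 := IsLocalDiffeomorphAt.comp (𝓡∂ (m + 1)) N h2 h3
      refine ld_congr h5 ?_
      have h6 : (F' ∘ (hιd x).localInverse) (ι x) ∈ hjp.localInverse.source := by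
        rw [← h4]
        exact hjp.localInverse_mem_source
      filter_upwards [(hιd x).localInverse.open_source.mem_nhds (hιd x).localInverse_mem_source,
        h2.contMDiffAt.continuousAt (hjp.localInverse.open_source.mem_nhds h6)] with y' g1 g2
      have g3 : ι ((hιd x).localInverse y') = y' := (hιd x).localInverse_right_inv g1
      have g4 := hjp.localInverse_right_inv g2
      show j.symm (G y') = hjp.localInverse ((F' ∘ (hιd x).localInverse) y')
      rw [Homeomorph.symm_apply_eq]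
      refine Subtype.ext ?_
      beta_reduce at g4
      rw [g4, comp_apply, ← hG1, g3]
    · have hyi : y ∉ (𝓡∂ (m + 1)).interior M := by rwa [← hιr]
      refine ld_congr (hb y hyi) ?_
      have h1 : IsClosed (ι '' C) := (hC.image hιc).isClosed
      have h2 : y ∉ ι '' C := fun h2 => hy (image_subset_range _ _ h2)
      filter_upwards [h1.isOpen_compl.mem_nhds h2] with y' hy'
      by_cases g1 : y' ∈ range ι
      · obtain ⟨x', rfl⟩ := g1
        have g2 : x' ∉ C := fun g2 => hy' ⟨x', g2, rfl⟩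
        have g3 : G (ι x') = h (ι x') := by
          refine Subtype.ext ?_
          rw [hG1, hF'C x' g2]
        rw [g3]
      · rw [hG2 y' g1]
  exact ⟨hloc.diffeomorphOfBijective ⟨fun a b hab => hGi (j.symm.injective hab),
    j.symm.surjective.comp hGs⟩⟩

end Pool.Agent.Y674.SH
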