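import Pool.Agent.Y691.SH.Box
import Pool.Agent.Y522.Stm3

/-!
# All compact subsets embed, by cutting boxes: thin maps (project SH)
-/

set_option autoImplicit false

open Set Filter Topology Metric Function MeasureTheory
open scoped Manifold ContDiff

noncomputable section

namespace Pool.Agent.Y674.SH
open Pool.Agent.Y522 Pool.Agent.Y691.SH

section thin

variable {n : ℕ} {X : Type} [TopologicalSpace X] [ChartedSpace (E n) X]
    {H : X → E n} {Y : Set (E n)}

theorem thin_cont (hH : ThinMap n H Y) : Continuous H := hH.proper.continuous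

theorem thin_open (hH : ThinMap n H Y) : IsOpen (H ⁻¹' Yᶜ) :=
  hH.closed.isOpen_compl.preimage (thin_cont hH)

/-- a section over the complement of `Y` -/
theorem thin_section (hH : ThinMap n H Y) [Nonempty X] : ∃ g : E n → X, (∀ y, y ∉ Y → H (g y) = y) ∧
    (∀ x, H x ∉ Y → g (H x) = x) ∧ ∀ y, y ∉ Y → ContinuousAt g y := by
  classical
  have h1 : ∀ y, ∃ x, y ∉ Y → H x = y := by
    intro y
    by_cases hy : y ∈ Y
    · exact ⟨Classical.arbitrary X, fun h => absurd hy h⟩
    · obtain ⟨x, hx, _⟩ := hH.bij y hy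
      exact ⟨x, fun _ => hx⟩
  choose g hg using h1
  have hg2 : ∀ x, H x ∉ Y → g (H x) = x := fun x hx =>
    (hH.bij _ hx).unique (hg _ hx) rfl
  refine ⟨g, hg, hg2, fun y hy => ?_⟩
  intro V hV
  obtain ⟨V', hV'V, hV'o, hgV'⟩ := mem_nhds_iff.1 hV
  have h2 : IsClosed (H '' V'ᶜ) := hH.proper.isClosedMap _ hV'o.isClosed_compl
  have h3 : y ∉ H '' V'ᶜ := by
    rintro ⟨x, hx, rfl⟩
    apply hx
    rw [← hg2 x hy]
    exact hgV'
  have h4 : (H '' V'ᶜ)ᶜ ∩ Yᶜ ∈ 𝓝 y :=
    (h2.isOpen_compl.inter hH.closed.isOpen_compl).mem_nhds ⟨h3, hy⟩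
  rw [mem_map]
  refine mem_of_superset h4 ?_
  rintro y' ⟨h5, h6⟩
  by_contra h7
  apply h5
  refine ⟨g y', fun h => h7 (hV'V h), hg y' h6⟩

end thin

section msub

variable {n : ℕ} {X : Type} [TopologicalSpace X] [ChartedSpace (E n) X]

/-- subtracting a constant does not change the differential -/
theorem mfderiv_sub_const3 (f : X → ℝ) (x : X)
    (hf : MDifferentiableAt (𝓡 n) 𝓘(ℝ, ℝ) f x) (s : ℝ)
    (h : mfderiv (𝓡 n) 𝓘(ℝ, ℝ) f x ≠ 0) :
    mfderiv (𝓡 n) 𝓘(ℝ, ℝ) (fun y => f y - s) x ≠ 0 := by
  intro hcon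
  apply h
  have ht0 : MDifferentiableAt 𝓘(ℝ, ℝ) 𝓘(ℝ, ℝ) (fun u : ℝ => u - s) (f x) :=
    (differentiableAt_id.sub_const s).mdifferentiableAt
  have hgd : MDifferentiableAt (𝓡 n) 𝓘(ℝ, ℝ) (fun y => f y - s) x := ht0.comp x hf
  have ht : MDifferentiableAt 𝓘(ℝ, ℝ) 𝓘(ℝ, ℝ) (fun u : ℝ => u + s) (f x - s) :=
    (differentiableAt_id.add_const s).mdifferentiableAt
  have h1 : mfderiv (𝓡 n) 𝓘(ℝ, ℝ) ((fun u : ℝ => u + s) ∘ (fun y => f y - s)) x =
      (mfderiv 𝓘(ℝ, ℝ) 𝓘(ℝ, ℝ) (fun u : ℝ => u + s) (f x - s)).comp
        (mfderiv (𝓡 n) 𝓘(ℝ, ℝ) (fun y => f y - s) x) := mfderiv_comp x ht hgd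
  have h2 : ((fun u : ℝ => u + s) ∘ (fun y => f y - s)) = f := by
    funext y; simp
  rw [h2, hcon] at h1
  rw [h1]
  exact ContinuousLinearMap.comp_zero _

end msub

section main

variable {m : ℕ} {X : Type} [TopologicalSpace X] [ChartedSpace (E (m + 1)) X]
    [IsManifold (𝓡 (m + 1)) ∞ X] {H : X → E (m + 1)} {Y : Set (E (m + 1))}

omit [IsManifold (𝓡 (m + 1)) ∞ X] in
theorem coord_smooth (hH : ThinMap (m + 1) H Y) (i : Fin (m + 1)) {x : X} (hx : H x ∉ Y) :
    ContMDiffAt (𝓡 (m + 1)) 𝓘(ℝ, ℝ) ∞ (fun x => H x i) x := by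
  have h1 : ContDiff ℝ ∞ (fun y : E (m + 1) => y i) := by fun_prop
  exact h1.contMDiff.contMDiffAt.comp x (hH.smooth x hx)

omit [IsManifold (𝓡 (m + 1)) ∞ X] in
/-- small boxes embed -/
theorem base3 (hH : ThinMap (m + 1) H Y) (M : ℝ) :
    ∃ δ : ℝ, 0 < δ ∧ ∀ a b : Fin (m + 1) → ℝ, (∀ i, -M ≤ a i) → (∀ i, b i ≤ M) →
      (∀ i, b i - a i ≤ δ) → ∀ K, K ⊆ Qb H a b → Emb (m + 1) K := by
  let e : E (m + 1) ≃ₜ (Fin (m + 1) → ℝ) := (EuclideanSpace.equiv (Fin (m + 1)) ℝ).toHomeomorph
  have he : ∀ x i, e (H x) i = H x i := fun x i => rfl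
  have hfib : ∀ y : Fin (m + 1) → ℝ, Emb (m + 1) (H ⁻¹' {e.symm y}) := fun y => hH.fib _
  choose U k hU hKU hk hkd using hfib
  have hcl : IsClosedMap (fun x => e (H x)) := e.isClosedMap.comp hH.proper.isClosedMap
  obtain ⟨δ, hδ, hL⟩ := lebesgue_number_lemma_of_metric
    (s := Icc (fun _ : Fin (m + 1) => -M) (fun _ => M))
    (c := fun y : Fin (m + 1) → ℝ => ((fun x => e (H x)) '' (U y)ᶜ)ᶜ) isCompact_Icc
    (fun y => (hcl _ (hU y).isClosed_compl).isOpen_compl)
    (by
      intro y _
      refine mem_iUnion.2 ⟨y, ?_⟩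
      rintro ⟨x, hx, hxy⟩
      apply hx
      apply hKU y
      rw [mem_preimage, mem_singleton_iff, ← hxy, Homeomorph.symm_apply_apply])
  refine ⟨δ, hδ, fun a b ha hb hab K hK => ?_⟩
  rcases K.eq_empty_or_nonempty with rfl | ⟨x₀, hx₀⟩
  · exact emb_empty
  · have h0 := hK hx₀
    obtain ⟨y, hy⟩ := hL (e (H x₀)) ⟨fun i => (ha i).trans (h0 i).1.le,
      fun i => (h0 i).2.le.trans (hb i)⟩
    refine ⟨U y, k y, hU y, ?_, hk y, hkd y⟩
    intro x hx
    have h1 := hK hx
    have h2 : e (H x) ∈ ball (e (H x₀)) δ := by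
      rw [mem_ball, dist_pi_lt_iff hδ]
      intro i
      rw [he, he, Real.dist_eq, abs_lt]
      have h3 := h1 i
      have h4 := h0 i
      have h5 := hab i
      constructor <;> linarith
    by_contra h
    exact hy h2 ⟨x, h, rfl⟩

/-- regular values -/
theorem exists_regular3 (hS : StSardM) [SecondCountableTopology X] (hH : ThinMap (m + 1) H Y)
    (R₀ : ℝ) (J : Fin (m + 1)) {α β : ℝ} (hαβ : α < β) :
    ∃ c, α < c ∧ c < β ∧ (∀ y : E (m + 1), ‖y‖ ≤ R₀ → y J = c → y ∉ Y) ∧
      ∀ x, H x ∉ Y → H x J = c → mfderiv (𝓡 (m + 1)) 𝓘(ℝ, ℝ) (fun x => H x J) x ≠ 0 := by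
  obtain ⟨S, hS'⟩ : ∃ S : Set ℝ, S = (fun y : E (m + 1) => y J) '' (Y ∩ closedBall 0 R₀) := ⟨_, rfl⟩
  have hSc : IsClosed S := by
    rw [hS']
    refine IsCompact.isClosed ?_
    refine ((isCompact_closedBall (0 : E (m + 1)) R₀).inter_left hH.closed).image ?_
    fun_prop
  have hSi : interior S = ∅ := by rw [hS']; exact hH.thin J R₀
  obtain ⟨s, hs, hsS⟩ : ∃ s ∈ Ioo α β, s ∉ S := by
    by_contra hcon
    push Not at hcon
    have h1 : Ioo α β ⊆ interior S := interior_maximal hcon isOpen_Ioo
    rw [hSi] at h1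
    exact h1 (show (α + β) / 2 ∈ Ioo α β from ⟨by linarith, by linarith⟩)
  obtain ⟨ε, hε, hεs⟩ := Metric.isOpen_iff.1 (isOpen_Ioo.inter hSc.isOpen_compl) s ⟨hs, hsS⟩
  let V : TopologicalSpace.Opens X := ⟨H ⁻¹' Yᶜ, thin_open hH⟩
  have hg : ContMDiff (𝓡 (m + 1)) 𝓘(ℝ, ℝ) ∞ (fun x : V => H x J) := by
    intro x
    have h1 : ContMDiffAt (𝓡 (m + 1)) 𝓘(ℝ, ℝ) ∞ (fun x => H x J) (x : X) :=
      coord_smooth hH J x.2
    exact h1.comp x contMDiff_subtype_val.contMDiffAt
  obtain ⟨c, hc1, hc2, hc3⟩ := exists_regular hS (X := V) (fun x : V => H x J) hg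
    (show s - ε < s + ε by linarith)
  have hc4 : c ∈ Ioo α β ∩ Sᶜ := hεs (by
    rw [mem_ball, Real.dist_eq, abs_lt]
    constructor <;> linarith)
  refine ⟨c, hc4.1.1, hc4.1.2, ?_, ?_⟩
  · intro y hy hyc hyY
    apply hc4.2
    rw [hS']
    exact ⟨y, ⟨hyY, by simpa using hy⟩, hyc⟩
  · intro x hx hxc hcon
    apply hc3 ⟨x, hx⟩ hxc
    have h1 : MDifferentiableAt (𝓡 (m + 1)) 𝓘(ℝ, ℝ) (fun x => H x J) x :=
      (coord_smooth hH J hx).mdifferentiableAt (by simp)
    have h2 : MDifferentiableAt (𝓡 (m + 1)) (𝓡 (m + 1)) (Subtype.val : V → X) ⟨x, hx⟩ :=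
      contMDiff_subtype_val.mdifferentiableAt (n := ∞) (by simp)
    have h3 : mfderiv (𝓡 (m + 1)) 𝓘(ℝ, ℝ) ((fun x => H x J) ∘ (Subtype.val : V → X)) ⟨x, hx⟩ =
        (mfderiv (𝓡 (m + 1)) 𝓘(ℝ, ℝ) (fun x => H x J) x).comp
          (mfderiv (𝓡 (m + 1)) (𝓡 (m + 1)) (Subtype.val : V → X) ⟨x, hx⟩) :=
      mfderiv_comp (x := (⟨x, hx⟩ : V)) (f := (Subtype.val : V → X)) h1 h2
    rw [hcon] at h3
    exact h3.trans (ContinuousLinearMap.zero_comp _)

/-- the slice of a box by a regular coordinate hyperplane -/
theorem slice_box3 (hSl : StSlice) (hE : StEng m) (hH : ThinMap (m + 1) H Y)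
    (a b : Fin (m + 1) → ℝ) (hab : ∀ i, a i < b i)
    (J : Fin (m + 1)) (c : ℝ) (hc1 : a J < c) (hc2 : c < b J)
    (hY : ∀ x, (∀ i, a i < x i ∧ x i < b i) → x J = c → x ∉ Y)
    (hreg : ∀ x, H x ∉ Y → H x J = c →
      mfderiv (𝓡 (m + 1)) 𝓘(ℝ, ℝ) (fun x => H x J) x ≠ 0)
    (K : Set X) (hK : IsCompact K) (hKW : ∀ x ∈ K, x ∈ Qb H a b ∧ H x J - c = 0) :
    ∃ (f : E m → X) (R : ℝ), Injective f ∧
      ContMDiff (𝓡 m) (𝓡 (m + 1)) ∞ f ∧
      (∀ x, Injective (mfderiv (𝓡 m) (𝓡 (m + 1)) f x)) ∧
      (∀ x, f x ∈ Qb H a b ∧ H (f x) J - c = 0 ∧ H (f x) ∉ Y) ∧ K ⊆ f '' closedBall 0 R := by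
  classical
  have hmid : ∀ y : E m, ∀ i, a i < (WithLp.toLp 2 (Fin.insertNth (α := fun _ => ℝ) J c
      (fun i : Fin m => sg (a (J.succAbove i)) (b (J.succAbove i)) (y i))) : E (m + 1)) i ∧
      (WithLp.toLp 2 (Fin.insertNth (α := fun _ => ℝ) J c
      (fun i : Fin m => sg (a (J.succAbove i)) (b (J.succAbove i)) (y i))) : E (m + 1)) i < b i := by
    intro y j
    refine Fin.succAboveCases J ?_ (fun i => ?_) j
    · simp only [Fin.insertNth_apply_same]
      exact ⟨hc1, hc2⟩
    · simp only [Fin.insertNth_apply_succAbove]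
      exact sg_mem (hab _) _
  have hmid2 : ∀ y : E m, (WithLp.toLp 2 (Fin.insertNth (α := fun _ => ℝ) J c
      (fun i : Fin m => sg (a (J.succAbove i)) (b (J.succAbove i)) (y i))) : E (m + 1)) ∉ Y := by
    intro y
    refine hY _ (hmid y) ?_
    simp only [Fin.insertNth_apply_same]
  have hne : Nonempty X := by
    obtain ⟨x, _, _⟩ := hH.bij _ (hmid2 0)
    exact ⟨x⟩
  obtain ⟨g, hg1, hg2, hg3⟩ := thin_section hH
  obtain ⟨f, R, hf1, hf2, hf3, hf4, hf5⟩ := hSl m hE X (Qb H a b ∩ H ⁻¹' Yᶜ) (fun x => H x J - c)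
    (fun x => WithLp.toLp 2 (fun i : Fin m =>
      lt' (a (J.succAbove i)) (b (J.succAbove i)) (H x (J.succAbove i))))
    (fun y => g (WithLp.toLp 2 (Fin.insertNth (α := fun _ => ℝ) J c (fun i : Fin m =>
      sg (a (J.succAbove i)) (b (J.succAbove i)) (y i)))))
    ((Qb_open (thin_cont hH) a b).inter (thin_open hH)) (by
      intro x hx
      exact (coord_smooth hH J hx.2).sub contMDiffAt_const) (by
      intro x hx hx0
      exact mfderiv_sub_const3 _ x ((coord_smooth hH J hx.2).mdifferentiableAt (by simp)) c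
        (hreg x hx.2 (sub_eq_zero.1 hx0))) (by
      intro x hx _
      have h1 : ContDiffAt ℝ ∞ (fun y : E (m + 1) => (WithLp.toLp 2 (fun i : Fin m =>
          lt' (a (J.succAbove i)) (b (J.succAbove i)) (y (J.succAbove i))) : E m)) (H x) := by
        rw [contDiffAt_euclidean]
        intro i
        have h2 : ContDiffAt ℝ ∞ (fun y : E (m + 1) => y (J.succAbove i)) (H x) := by fun_prop
        exact (lt_cd (hx.1 (J.succAbove i)).1 (hx.1 (J.succAbove i)).2).comp (H x) h2
      exact h1.contMDiffAt.comp x (hH.smooth x hx.2)) (by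
      rw [continuous_iff_continuousAt]
      intro y
      refine ContinuousAt.comp (g := g) (hg3 _ (hmid2 y)) ?_
      refine Continuous.continuousAt ?_
      refine (PiLp.continuous_toLp 2 _).comp ?_
      refine continuous_pi (fun j => ?_)
      refine Fin.succAboveCases J ?_ (fun i => ?_) j
      · simp only [Fin.insertNth_apply_same]
        exact continuous_const
      · simp only [Fin.insertNth_apply_succAbove]
        refine (sg_cont _ _).comp ?_
        fun_prop) (by
      intro y
      have h1 := hg1 _ (hmid2 y)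
      refine ⟨⟨?_, ?_⟩, ?_⟩
      · intro j
        rw [h1]
        exact hmid y j
      · rw [mem_preimage, h1]
        exact hmid2 y
      · simp only [h1, Fin.insertNth_apply_same, sub_self]) (by
      intro y
      ext i
      simp only [hg1 _ (hmid2 y), Fin.insertNth_apply_succAbove]
      exact lt_sg (hab _) _) (by
      intro x hx hx0
      have h1 : (WithLp.toLp 2 (Fin.insertNth (α := fun _ => ℝ) J c (fun i : Fin m =>
          sg (a (J.succAbove i)) (b (J.succAbove i)) ((WithLp.toLp 2 (fun i : Fin m =>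
            lt' (a (J.succAbove i)) (b (J.succAbove i)) (H x (J.succAbove i))) : E m) i))) :
            E (m + 1)) = H x := by
        ext j
        refine Fin.succAboveCases J ?_ (fun i => ?_) j
        · simp only [Fin.insertNth_apply_same]
          exact (sub_eq_zero.1 hx0).symm
        · simp only [Fin.insertNth_apply_succAbove]
          exact sg_lt (hx.1 _).1 (hx.1 _).2
      beta_reduce
      rw [h1]
      exact hg2 x hx.2) K hK (by
      intro x hx
      obtain ⟨h1, h2⟩ := hKW x hx
      exact ⟨⟨h1, hY _ h1 (sub_eq_zero.1 h2)⟩, h2⟩)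
  exact ⟨f, R, hf1, hf2, hf3, fun x => ⟨(hf4 x).1.1, (hf4 x).2, (hf4 x).1.2⟩, hf5⟩

end main

/-- **All compact subsets embed**: thin maps. -/
theorem boxStep3 (hS : StSardM) (hSl : StSlice) (hSum : StSum3) : ∀ m, StEng m → StBox3 m := by
  intro m hE X _ _ _ _ _ H Y hH K hK
  have hHc := thin_cont hH
  have hcc : ∀ i : Fin (m + 1), Continuous (fun x => H x i) := fun i => by fun_prop
  obtain ⟨M, hM0, hMK⟩ : ∃ M : ℝ, 0 < M ∧ ∀ x ∈ K, ‖H x‖ < M := by
    obtain ⟨C, hC⟩ := (hK.image hHc).isBounded.exists_norm_le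
    refine ⟨max C 0 + 1, by positivity, fun x hx => ?_⟩
    have h1 := hC (H x) ⟨x, hx, rfl⟩
    have h2 := le_max_left C 0
    linarith
  -- the cube is contained in a ball
  obtain ⟨R₀, hR0⟩ : ∃ R₀ : ℝ, ∀ y : E (m + 1), (∀ i, |y i| ≤ M) → ‖y‖ ≤ R₀ := by
    refine ⟨√(∑ _i : Fin (m + 1), M ^ 2), fun y hy => ?_⟩
    rw [EuclideanSpace.norm_eq]
    refine Real.sqrt_le_sqrt (Finset.sum_le_sum fun i _ => ?_)
    rw [Real.norm_eq_abs]
    exact pow_le_pow_left₀ (abs_nonneg _) (hy i) 2
  obtain ⟨δ, hδ, hbase⟩ := base3 hH M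
  have key : ∀ j : ℕ, ∀ a b : Fin (m + 1) → ℝ, (∀ i, -M ≤ a i) → (∀ i, b i ≤ M) →
      (∀ i : Fin (m + 1), j ≤ i.val → b i - a i ≤ δ) → ∀ K, IsCompact K → K ⊆ Qb H a b →
      Emb (m + 1) K := by
    intro j
    induction j with
    | zero => exact fun a b ha hb hab K _ hK => hbase a b ha hb (fun i => hab i (Nat.zero_le _)) K hK
    | succ j ih =>
      rcases Nat.lt_or_ge j (m + 1) with hj | hj
      swap
      · intro a b ha hb _ K hK hKQ
        refine ih a b ha hb (fun i hi => ?_) K hK hKQ
        exact absurd i.isLt (by omega)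
      · set J : Fin (m + 1) := ⟨j, hj⟩ with hJ
        have inner : ∀ N : ℕ, ∀ a b : Fin (m + 1) → ℝ, (∀ i, -M ≤ a i) → (∀ i, b i ≤ M) →
            (∀ i : Fin (m + 1), j + 1 ≤ i.val → b i - a i ≤ δ) → b J - a J ≤ δ + N * (δ / 2) →
            ∀ K, IsCompact K → K ⊆ Qb H a b → Emb (m + 1) K := by
          intro N
          induction N with
          | zero =>
            intro a b ha hb hab hN K hK hKQ
            refine ih a b ha hb (fun i hi => ?_) K hK hKQ
            rcases Nat.eq_or_lt_of_le hi with h | h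
            · have : i = J := Fin.ext h.symm
              rw [this]
              simpa using hN
            · exact hab i h
          | succ N ihN =>
            intro a b ha hb hab hN K hK hKQ
            by_cases hN' : b J - a J ≤ δ + N * (δ / 2)
            · exact ihN a b ha hb hab hN' K hK hKQ
            · push Not at hN'
              have hN0 : (0 : ℝ) ≤ N * (δ / 2) := by positivity
              by_cases hne : ∃ i, b i ≤ a i
              · obtain ⟨i, hi⟩ := hne
                have : K = ∅ := by
                  rw [Set.eq_empty_iff_forall_notMem]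
                  intro x hx
                  have := hKQ hx i
                  linarith [this.1, this.2]
                rw [this]
                exact emb_empty
              · push Not at hne
                obtain ⟨c, hc1, hc2, hc3, hc4⟩ := exists_regular3 hS hH R₀ J
                  (show b J - δ < b J - δ / 2 by linarith)
                have hcY : ∀ y : E (m + 1), (∀ i, a i < y i ∧ y i < b i) → y J = c → y ∉ Y := by
                  intro y hy hyc
                  refine hc3 y ?_ hyc
                  refine hR0 y fun i => ?_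
                  rw [abs_le]
                  constructor
                  · linarith [ha i, (hy i).1]
                  · linarith [hb i, (hy i).2]
                have hφ : Continuous (fun x => H x J - c) := (hcc J).sub continuous_const
                have hK0 : IsCompact (K ∩ {x | H x J - c = 0}) :=
                  hK.inter_right (isClosed_eq hφ continuous_const)
                obtain ⟨f, R, hfi, hfs, hfd, hfW, hfK⟩ := slice_box3 hSl hE hH a b hne J c
                  (by linarith) (by linarith) hcY hc4 _ hK0 (fun x hx => ⟨hKQ hx.1, hx.2⟩)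
                refine hSum m X (Qb H a b) K (fun x => H x J - c) f hφ ?_ hK hKQ hfi hfs hfd
                  (fun x => (hfW x).2.1)
                  (fun x => mfderiv_sub_const3 _ _
                    ((coord_smooth hH J (hfW x).2.2).mdifferentiableAt (by simp)) c
                    (hc4 _ (hfW x).2.2 (sub_eq_zero.1 (hfW x).2.1)))
                  (fun x => (hfW x).1) ?_ ?_ ?_
                · intro x
                  filter_upwards [(thin_open hH).mem_nhds (hfW x).2.2] with y hy
                  exact (coord_smooth hH J hy).sub contMDiffAt_const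
                · intro x hx hx0
                  exact image_subset_range _ _ (hfK ⟨hx, hx0⟩)
                · intro K' hK' hK'Q hneg
                  refine ihN a (update b J (b J - δ / 2)) ha ?_ ?_ ?_ K' hK' ?_
                  · intro i
                    by_cases hi : i = J
                    · subst hi
                      rw [update_self]
                      linarith [hb J]
                    · rw [update_of_ne hi]
                      exact hb i
                  · intro i hi
                    have hi' : i ≠ J := by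
                      rintro rfl
                      simp only [hJ] at hi
                      omega
                    rw [update_of_ne hi']
                    exact hab i hi
                  · rw [update_self]
                    push_cast at hN
                    linarith
                  · intro x hx i
                    have h1 := hK'Q hx i
                    by_cases hi : i = J
                    · subst hi
                      rw [update_self]
                      have h2 := hneg x hx
                      exact ⟨h1.1, by linarith⟩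
                    · rw [update_of_ne hi]
                      exact h1
                · intro K' hK' hK'Q hpos
                  refine ih (update a J (b J - δ)) b ?_ hb ?_ K' hK' ?_
                  · intro i
                    by_cases hi : i = J
                    · subst hi
                      rw [update_self]
                      linarith [ha J]
                    · rw [update_of_ne hi]
                      exact ha i
                  · intro i hi
                    rcases Nat.eq_or_lt_of_le hi with h | h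
                    · have : i = J := Fin.ext h.symm
                      rw [this, update_self]
                      linarith
                    · have hi' : i ≠ J := by
                        rintro rfl
                        simp only [hJ] at h
                        omega
                      rw [update_of_ne hi']
                      exact hab i h
                  · intro x hx i
                    have h1 := hK'Q hx i
                    by_cases hi : i = J
                    · subst hi
                      rw [update_self]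
                      have h2 := hpos x hx
                      exact ⟨by linarith, h1.2⟩
                    · rw [update_of_ne hi]
                      exact h1
        intro a b ha hb hab K hK hKQ
        obtain ⟨N, hN⟩ := exists_nat_gt ((b J - a J - δ) / (δ / 2))
        refine inner N a b ha hb hab ?_ K hK hKQ
        rw [div_lt_iff₀ (by positivity)] at hN
        linarith
  refine key (m + 1) (fun _ => -M) (fun _ => M) (fun _ => le_rfl) (fun _ => le_rfl)
    (fun i hi => absurd i.isLt (by omega)) K hK ?_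
  intro x hx i
  have h1 := hMK x hx
  have h2 : |H x i| ≤ ‖H x‖ := by
    have := PiLp.norm_apply_le (H x) i
    simpa using this
  exact abs_lt.1 (lt_of_le_of_lt h2 h1)

end Pool.Agent.Y674.SH
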